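import Pool.Agent.H43.BZ.Stm3

set_option autoImplicit false

open MeasureTheory Metric Set Filter Topology
open scoped RealInnerProductSpace ENNReal

namespace Pool.Agent.H328.BZ

open Pool.Agent.H43.BZ

theorem cont_d2 {d : ℕ} (h : E d → ℝ) (v : E d) : Continuous (fun z : E d => d2 h v z) := by
  unfold d2
  exact ((fderiv ℝ (fderiv ℝ h) v).continuous).clm_apply continuous_id

theorem meas_r {d : ℕ} (γ : ℝ) (v : E d) : Measurable (fun w : E d => ‖v - w‖ ^ γ) :=
  ((measurable_const.sub measurable_id).norm).pow_const γ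

theorem meas_aHess {d : ℕ} (γ : ℝ) (h : E d → ℝ) (v : E d) :
    Measurable (fun w : E d => aHess γ h v (v - w)) := by
  unfold aHess
  refine (meas_r γ v).mul (Measurable.sub ?_ ?_)
  · exact (((measurable_const.sub measurable_id).norm).pow_const 2).mul measurable_const
  · exact (cont_d2 h v).measurable.comp (measurable_const.sub measurable_id)

theorem abs_aHess {d : ℕ} (γ : ℝ) (h : E d → ℝ) (v z : E d) :
    |aHess γ h v z| ≤ ‖z‖ ^ γ * ((|∑ i : Fin d, d2 h v (EuclideanSpace.single i 1)| +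
      ‖fderiv ℝ (fderiv ℝ h) v‖) * ‖z‖ ^ 2) := by
  unfold aHess
  rw [abs_mul, abs_of_nonneg (Real.rpow_nonneg (norm_nonneg z) γ)]
  refine mul_le_mul_of_nonneg_left ?_ (Real.rpow_nonneg (norm_nonneg z) γ)
  refine (abs_sub _ _).trans ?_
  rw [abs_mul, abs_of_nonneg (by positivity : (0:ℝ) ≤ ‖z‖ ^ 2), add_mul]
  refine add_le_add (le_of_eq (mul_comm _ _)) ?_
  unfold d2
  have h1 := (fderiv ℝ (fderiv ℝ h) v).le_opNorm₂ z z
  rw [Real.norm_eq_abs] at h1
  refine h1.trans (le_of_eq ?_)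
  ring

theorem dist_le {d : ℕ} (v w : E d) : ‖v - w‖ ^ 2 ≤ (1 + ‖v‖) ^ 2 * (1 + ‖w‖) ^ 2 := by
  have h1 : ‖v - w‖ ≤ ‖v‖ + ‖w‖ := norm_sub_le v w
  have h2 : ‖v - w‖ ≤ (1 + ‖v‖) * (1 + ‖w‖) := by
    have := norm_nonneg v
    have := norm_nonneg w
    nlinarith
  rw [← mul_pow]
  exact pow_le_pow_left₀ (norm_nonneg _) h2 2

theorem LQLE (h1 : S_LND) (h2 : S_LHES) (h3 : S_LP) (h4 : S_LKEY) (h5 : S_KKI1) : S_LQLE := by
  intro d hd
  obtain ⟨C, hC0, hC⟩ := h4 d hd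
  refine ⟨C, hC0, fun γ hγ1 hγ2 g hg hg0 N hN v hv => ?_⟩
  obtain ⟨C1, hK⟩ := h5 d hd γ hγ1 hγ2
  obtain ⟨hI1, -, hI3⟩ := hK v
  have hnv : 0 ≤ N * P d v := hv ▸ hg0 v
  have hgc : Continuous g := hg.1.continuous
  obtain ⟨M, hM⟩ := hg.2 (d + 5)
  have hM' : ∀ w, g w ≤ M * ((1 + ‖w‖) ^ (d + 5))⁻¹ := by
    intro w
    have h6 := (hM w).1
    rw [abs_of_nonneg (hg0 w)] at h6
    have h7 : (0:ℝ) < (1 + ‖w‖) ^ (d + 5) := by positivity
    rw [← div_eq_mul_inv, le_div_iff₀ h7, mul_comm]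
    exact h6
  have hr0 : ∀ w : E d, 0 ≤ ‖v - w‖ ^ γ := fun w => Real.rpow_nonneg (norm_nonneg _) γ
  have hG0m : Measurable (fun w : E d => g w * (‖v - w‖ ^ γ * (1 + ‖w‖) ^ 2)) :=
    hgc.measurable.mul ((meas_r γ v).mul ((measurable_const.add measurable_norm).pow_const 2))
  have hG0 : Integrable (fun w : E d => g w * (‖v - w‖ ^ γ * (1 + ‖w‖) ^ 2)) := by
    refine (hI3.const_mul M).mono' hG0m.aestronglyMeasurable (Eventually.of_forall fun w => ?_)
    have h6 : 0 ≤ ‖v - w‖ ^ γ * (1 + ‖w‖) ^ 2 := mul_nonneg (hr0 w) (by positivity)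
    rw [Real.norm_of_nonneg (mul_nonneg (hg0 w) h6)]
    have h7 := mul_le_mul_of_nonneg_right (hM' w) h6
    refine h7.trans (le_of_eq ?_)
    rw [← Real.rpow_natCast (1 + ‖w‖) 2]
    push_cast
    ring
  have dom : ∀ (f : E d → ℝ) (K : ℝ), Measurable f →
      (∀ w, |f w| ≤ K * (‖v - w‖ ^ γ * (1 + ‖w‖) ^ 2)) → Integrable (fun w => g w * f w) := by
    intro f K hf hb
    refine (hG0.const_mul K).mono' (hgc.measurable.mul hf).aestronglyMeasurable
      (Eventually.of_forall fun w => ?_)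
    rw [Real.norm_eq_abs, abs_mul, abs_of_nonneg (hg0 w)]
    refine (mul_le_mul_of_nonneg_left (hb w) (hg0 w)).trans (le_of_eq ?_)
    ring
  have intH : ∀ h : E d → ℝ, Integrable (fun w => g w * aHess γ h v (v - w)) := by
    intro h
    refine dom _ ((|∑ i : Fin d, d2 h v (EuclideanSpace.single i 1)| +
      ‖fderiv ℝ (fderiv ℝ h) v‖) * (1 + ‖v‖) ^ 2) (meas_aHess γ h v) fun w => ?_
    refine (abs_aHess γ h v (v - w)).trans ?_
    have h6 : 0 ≤ (|∑ i : Fin d, d2 h v (EuclideanSpace.single i 1)| +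
      ‖fderiv ℝ (fderiv ℝ h) v‖) := by positivity
    have h7 := mul_le_mul_of_nonneg_left (mul_le_mul_of_nonneg_left (dist_le v w) h6) (hr0 w)
    refine h7.trans (le_of_eq ?_)
    ring
  have one_le_L : ∀ w : E d, (1:ℝ) ≤ (1 + ‖w‖) ^ 2 := fun w =>
    one_le_pow₀ (by have := norm_nonneg w; linarith)
  have intR : Integrable (fun w => g w * ‖v - w‖ ^ γ) := by
    refine dom _ 1 (meas_r γ v) fun w => ?_
    rw [abs_of_nonneg (hr0 w), one_mul]
    exact le_mul_of_one_le_right (hr0 w) (one_le_L w)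
  have kk_eq : ∀ w : E d, kk γ 1 v w = ‖v - w‖ ^ γ *
      ((1 + ‖w‖) ^ 2 / (1 + (‖v - w‖ / (1 + ‖w‖)) ^ 2)) := by
    intro w
    unfold kk
    rw [mul_one, Real.rpow_two, mul_div_assoc]
  have hkm : Measurable (fun w : E d => kk γ 1 v w) := by
    have : (fun w : E d => kk γ 1 v w) = fun w => ‖v - w‖ ^ γ *
      ((1 + ‖w‖) ^ 2 / (1 + (‖v - w‖ / (1 + ‖w‖)) ^ 2)) := funext kk_eq
    rw [this]
    refine (meas_r γ v).mul (Measurable.div ?_ ?_)
    · exact (measurable_const.add measurable_norm).pow_const 2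
    · exact measurable_const.add ((((measurable_const.sub measurable_id).norm).div
        (measurable_const.add measurable_norm)).pow_const 2)
  have intK : Integrable (fun w => g w * kk γ 1 v w) := by
    refine dom _ 1 hkm fun w => ?_
    have h6 : (0:ℝ) ≤ (1 + ‖w‖) ^ 2 / (1 + (‖v - w‖ / (1 + ‖w‖)) ^ 2) := by positivity
    rw [kk_eq, abs_of_nonneg (mul_nonneg (hr0 w) h6), one_mul]
    refine mul_le_mul_of_nonneg_left (div_le_self (by positivity) ?_) (hr0 w)
    have : 0 ≤ (‖v - w‖ / (1 + ‖w‖)) ^ 2 := by positivity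
    linarith
  -- the comparison
  obtain ⟨hPc, hPf⟩ := h3 d hd γ N
  have step1 : ∫ w, g w * aHess γ g v (v - w) ≤
      ∫ w, g w * aHess γ (fun y => N * P d y) v (v - w) := by
    refine integral_mono (intH g) (intH _) fun w => ?_
    exact mul_le_mul_of_nonneg_left
      (h2 d hd γ g (fun y => N * P d y) hg.1 hPc v hN hv (v - w)) (hg0 w)
  have step2 : (∫ w, g w * aHess γ (fun y => N * P d y) v (v - w)) +
      ((d : ℝ) - 1) * (d + γ) * (N * P d v) * ∫ w, g w * ‖v - w‖ ^ γ ≤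
      C * (N * P d v) * ∫ w, g w * kk γ 1 v w := by
    rw [← integral_const_mul, ← integral_const_mul, ← integral_add (intH _) (intR.const_mul _)]
    refine integral_mono ((intH _).add (intR.const_mul _)) (intK.const_mul _) fun w => ?_
    have h6 := hC γ hγ2 v w
    have h7 : 0 ≤ (N * P d v) * (g w * ‖v - w‖ ^ γ) :=
      mul_nonneg hnv (mul_nonneg (hg0 w) (hr0 w))
    have h8 := mul_le_mul_of_nonneg_left h6 h7
    change g w * aHess γ (fun y => N * P d y) v (v - w) +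
      ((d : ℝ) - 1) * (d + γ) * (N * P d v) * (g w * ‖v - w‖ ^ γ) ≤
      C * (N * P d v) * (g w * kk γ 1 v w)
    rw [hPf, kk_eq]
    refine le_trans (le_of_eq ?_) (h8.trans (le_of_eq ?_))
    · ring
    · ring
  rw [h1 d hd γ hγ1 hγ2 g hg v, hv]
  exact (add_le_add step1 le_rfl).trans step2

end Pool.Agent.H328.BZ
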